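import Mathlib

/-!
Module MF-Deg (MP_06b9d2_nt, Maeda, large irreducible factors). The degree of `ζ + ζ⁻¹` over `ZMod p`.

`λ = ζ + ζ⁻¹` is algebraic over `F = ZMod p`; let `d = (minpoly F λ).natDegree ≥ 1`, `d ≤ P.natDegree` (`minpoly.natDegree_le_of_ne_zero` or `minpoly.min`). The field `F⟮λ⟯` has `p ^ d` elements (`IntermediateField.adjoin.finrank`, `Module.card_eq_pow_finrank`), so `λ ^ (p ^ d) = λ` (`FiniteField.pow_card`). With `q = p ^ d`: `(ζ + ζ⁻¹) ^ q = ζ ^ q + ζ⁻¹ ^ q` (`add_pow_char_pow`, `CharP K p`), so `ζ ^ q + ζ ^ (-q) = ζ + ζ⁻¹`, i.e. `(ζ ^ q - ζ) (ζ ^ (q + 1) - 1) = 0` after multiplication by `ζ ^ q`... (`a + a⁻¹ = b + b⁻¹` gives `a = b` or `a b = 1`). So `ζ ^ (q - 1) = 1` or `ζ ^ (q + 1) = 1`, i.e. `m ∣ q - 1` or `m ∣ q + 1` (`IsPrimitiveRoot.dvd_of_pow_eq_one`), so not `1 ≤ d < r`.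
-/

namespace Pool.Agent.Lib.MP_06b9d2_nt.MF

open Polynomial

theorem deg {p m r : ℕ} [Fact p.Prime] (hm : 1 ≤ m)
    (hr : ∀ j, 1 ≤ j → j < r → ¬ m ∣ p ^ j - 1 ∧ ¬ m ∣ p ^ j + 1)
    {K : Type} [Field K] [Algebra (ZMod p) K] (ζ : K) (hζ : IsPrimitiveRoot ζ m)
    (P : (ZMod p)[X]) (hP : P ≠ 0) (h : aeval (ζ + ζ⁻¹) P = 0) : r ≤ P.natDegree := by
  classical
  have hp : p.Prime := Fact.out
  set lam : K := ζ + ζ⁻¹ with hlam
  have halg : IsAlgebraic (ZMod p) lam := ⟨P, hP, h⟩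
  have hint : IsIntegral (ZMod p) lam := halg.isIntegral
  set d : ℕ := (minpoly (ZMod p) lam).natDegree with hd
  have hd1 : 1 ≤ d := minpoly.natDegree_pos hint
  have hdP : d ≤ P.natDegree := natDegree_le_of_dvd (minpoly.dvd _ _ h) hP
  have hCK : CharP K p := charP_of_injective_algebraMap (algebraMap (ZMod p) K).injective p
  have hEK : ExpChar K p := ExpChar.prime hp
  -- the field generated by `lam` has `p ^ d` elements
  have hpow : lam ^ p ^ d = lam := by
    have hfd : FiniteDimensional (ZMod p) (IntermediateField.adjoin (ZMod p) {lam}) :=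
      IntermediateField.adjoin.finiteDimensional hint
    have hfin : Finite (IntermediateField.adjoin (ZMod p) {lam}) :=
      Module.finite_of_finite (ZMod p)
    letI : Fintype (IntermediateField.adjoin (ZMod p) {lam}) := Fintype.ofFinite _
    have hcard : Fintype.card (IntermediateField.adjoin (ZMod p) {lam}) = p ^ d := by
      rw [Module.card_eq_pow_finrank (K := ZMod p), ZMod.card,
        IntermediateField.adjoin.finrank hint]
    have h1 := FiniteField.pow_card (⟨lam, IntermediateField.mem_adjoin_simple_self (ZMod p) lam⟩ :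
      IntermediateField.adjoin (ZMod p) {lam})
    rw [hcard] at h1
    have h2 := congrArg Subtype.val h1
    simpa using h2
  have hz : ζ ≠ 0 := hζ.ne_zero (by omega)
  have hq : ζ ^ p ^ d + (ζ ^ p ^ d)⁻¹ = ζ + ζ⁻¹ := by
    have h1 : lam ^ p ^ d = ζ ^ p ^ d + ζ⁻¹ ^ p ^ d := by
      rw [hlam, add_pow_expChar_pow]
    rw [inv_pow] at h1
    rw [← h1, hpow]
  set a : K := ζ ^ p ^ d with ha
  have ha0 : a ≠ 0 := pow_ne_zero _ hz
  have hprod : (a - ζ) * (a * ζ - 1) = 0 := by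
    have h1 : (a - ζ) * (a * ζ - 1) = a * ζ * ((a + a⁻¹) - (ζ + ζ⁻¹)) := by
      field_simp
      ring
    rw [h1, hq]
    ring
  have hq1 : 1 ≤ p ^ d := Nat.one_le_pow _ _ hp.pos
  by_contra hcon
  have hdr : d < r := by omega
  obtain ⟨n1, n2⟩ := hr d hd1 hdr
  rcases mul_eq_zero.mp hprod with h1 | h1
  · apply n1
    apply hζ.dvd_of_pow_eq_one
    have h2 : ζ ^ (p ^ d - 1) * ζ = ζ := by
      rw [← pow_succ, Nat.sub_add_cancel hq1]
      exact sub_eq_zero.mp h1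
    exact mul_right_cancel₀ hz (h2.trans (one_mul ζ).symm)
  · apply n2
    apply hζ.dvd_of_pow_eq_one
    rw [pow_succ]
    exact sub_eq_zero.mp h1

end Pool.Agent.Lib.MP_06b9d2_nt.MF
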