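import Pool.Agent.Lib.MP_06b9d2_nt.ME.Ari

/-!
Module MF-FOne (MP_06b9d2_nt, Maeda, large irreducible factors). The coefficients of `Δ ^ N`, `N = (p + 1) / 8`, at the powers of `2`.

`ME.ari` with `n = 1`, `s = 0` (`8 * 1 ∣ p + 1`), `m = fun _ => j`: `Mm 1 m = 2 ^ j` (`Pr 1 = {2}`: `(2 * 1).primeFactors = {2}`; show first that every `l : Pr 1` is `two 1`), `lin_XX`: the index set is the one-element set of the function with the value `j + 1`.
-/

namespace Pool.Agent.Lib.MP_06b9d2_nt.MF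

open Pool.Agent.L1
open Pool.Agent.Lib.MP_06b9d2_nt.ME

private theorem uniq (l : Pr 1) : l = two 1 := by
  have h1 : (l : ℕ) ∣ 2 := Nat.dvd_of_mem_primeFactors l.2
  have h2 : (l : ℕ).Prime := Nat.prime_of_mem_primeFactors l.2
  exact Subtype.ext ((Nat.prime_dvd_prime_iff_eq h2 Nat.prime_two).1 h1)

private theorem prod_one {M : Type*} [CommMonoid M] (f : Pr 1 → M) : ∏ l, f l = f (two 1) :=
  Fintype.prod_eq_single (two 1) fun l hl => absurd (uniq l) hl

theorem form_one {p : ℕ} [Fact p.Prime] (h8 : p % 8 = 7) (j : ℕ) :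
    ((PowerSeries.coeff (2 ^ j) (Delz ^ Np p 0) : ℤ) : ZMod p) =
      8 * 2 ^ j * ph p 1 0 (fun _ => (j : ℤ) + 1) := by
  have h8' : 8 * 1 ∣ p + 1 := by omega
  have hM : Mm 1 (fun _ => j) = 2 ^ j := by
    unfold Mm
    rw [prod_one]
    rfl
  have h := ari (p := p) (n := 1) h8' 0 (fun _ => j)
  rw [hM] at h
  rw [h, pow_zero, one_mul]
  have hX : XX p (two 1) (fun _ => j) =
      AddMonoidAlgebra.single (fun _ : Pr 1 => (j : ℤ) + 1) (1 : ZMod p) := by
    unfold XX
    rw [prod_one, if_pos rfl]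
    unfold E
    congr 1
    funext l
    rw [uniq l, Pi.single_eq_same]
  have hl : lin (ph p 1 0) (XX p (two 1) (fun _ => j)) = ph p 1 0 (fun _ => (j : ℤ) + 1) := by
    rw [hX, lin_single, one_mul]
  rw [hl]
  push_cast
  ring

end Pool.Agent.Lib.MP_06b9d2_nt.MF
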