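import Mathlib

/-!
Module MF-Fac (MP_06b9d2_nt, Maeda, large irreducible factors). Integral factors.

Induction on `P` by `UniqueFactorizationMonoid.induction_on_prime` (or on the multiset `normalizedFactors P`): for every nonzero `P : ℚ[X]` all of whose irreducible factors have degree `< r` there are a list `l` of integral polynomials and `c ≠ 0` with the three properties. Units: `l = []`. For an irreducible `g`: `g = C a * G.map` with `G : ℤ[X]` primitive (`Polynomial.IsPrimitive`; `IsLocalization.integerNormalization`, `Polynomial.content`, `primPart`; e.g. `Polynomial.exists_...` or: multiply `g` by a common denominator and divide by the content), `G.natDegree = g.natDegree < r`, and `G` modulo `p` is not `0` since otherwise `C p ∣ G`, `p ∣ content G = 1`.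
-/

namespace Pool.Agent.Lib.MP_06b9d2_nt.MF

open Polynomial

/-- a primitive integral multiple of a rational polynomial -/
private theorem fac_prim (q : ℚ[X]) (hq : q ≠ 0) : ∃ (G : ℤ[X]) (c : ℚ), c ≠ 0 ∧
    G.IsPrimitive ∧ G.natDegree = q.natDegree ∧ C c * q = G.map (Int.castRingHom ℚ) := by
  obtain ⟨b, hbM, hb⟩ := IsLocalization.integerNormalization_spec (nonZeroDivisors ℤ) q
  set F := IsLocalization.integerNormalization (nonZeroDivisors ℤ) q with hF
  have hb0 : ((b : ℤ) : ℚ) ≠ 0 := by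
    have := nonZeroDivisors.ne_zero hbM
    exact_mod_cast this
  have hF' : F.map (Int.castRingHom ℚ) = C ((b : ℤ) : ℚ) * q := by
    have h1 : F.map (Int.castRingHom ℚ) = (b : ℤ) • q := hb
    rw [h1, zsmul_eq_mul]
    simp
  have hFne : F ≠ 0 := by
    intro h
    rw [h, Polynomial.map_zero] at hF'
    exact (mul_ne_zero (C_ne_zero.2 hb0) hq) hF'.symm
  have hc0 : F.content ≠ 0 := content_eq_zero_iff.not.2 hFne
  have hcQ : ((F.content : ℤ) : ℚ) ≠ 0 := by exact_mod_cast hc0
  refine ⟨F.primPart, ((b : ℤ) : ℚ) / ((F.content : ℤ) : ℚ), div_ne_zero hb0 hcQ,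
    F.isPrimitive_primPart, ?_, ?_⟩
  · rw [natDegree_primPart]
    have hinj : Function.Injective (Int.castRingHom ℚ) := Int.cast_injective
    rw [← natDegree_map_eq_of_injective hinj F, hF', natDegree_C_mul hb0]
  · have h2 : F.map (Int.castRingHom ℚ) =
        C ((F.content : ℤ) : ℚ) * F.primPart.map (Int.castRingHom ℚ) := by
      conv_lhs => rw [F.eq_C_content_mul_primPart]
      rw [Polynomial.map_mul, map_C]
      rfl
    rw [hF'] at h2
    have h3 : C (((b : ℤ) : ℚ) / ((F.content : ℤ) : ℚ)) * q =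
        C (((F.content : ℤ) : ℚ)⁻¹) * (C ((b : ℤ) : ℚ) * q) := by
      rw [← mul_assoc, ← C_mul]
      congr 2
      rw [div_eq_mul_inv, mul_comm]
    rw [h3, h2, ← mul_assoc, ← C_mul, inv_mul_cancel₀ hcQ, C_1, one_mul]

private theorem fac_mod {p : ℕ} (hp : p.Prime) (G : ℤ[X]) (hG : G.IsPrimitive) :
    G.map (Int.castRingHom (ZMod p)) ≠ 0 := by
  intro h
  have h1 : C (p : ℤ) ∣ G := by
    rw [C_dvd_iff_dvd_coeff]
    intro i
    have h2 := congrArg (fun P => coeff P i) h
    simp only [coeff_map, coeff_zero] at h2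
    have h3 : ((G.coeff i : ℤ) : ZMod p) = 0 := h2
    rwa [ZMod.intCast_zmod_eq_zero_iff_dvd] at h3
  have h4 := hG _ h1
  rw [Int.isUnit_iff] at h4
  have := hp.two_le
  omega

theorem fac {p r : ℕ} (hp : p.Prime) (P : ℚ[X]) (hP : P ≠ 0)
    (h : ∀ g : ℚ[X], Irreducible g → g ∣ P → g.natDegree < r) :
    ∃ (l : List ℤ[X]) (c : ℚ), c ≠ 0 ∧
      (∀ G ∈ l, G.map (Int.castRingHom (ZMod p)) ≠ 0 ∧ G.natDegree < r) ∧
      C c * P = l.prod.map (Int.castRingHom ℚ) := by
  revert hP h
  refine UniqueFactorizationMonoid.induction_on_prime P ?_ ?_ ?_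
  · intro hP _
    exact absurd rfl hP
  · intro x hx _ _
    obtain ⟨a, ha, rfl⟩ := Polynomial.isUnit_iff.1 hx
    have ha0 : a ≠ 0 := ha.ne_zero
    refine ⟨[], a⁻¹, inv_ne_zero ha0, ?_, ?_⟩
    · intro G hG
      simp at hG
    · rw [List.prod_nil, Polynomial.map_one, ← C_mul, inv_mul_cancel₀ ha0, C_1]
  · intro a q ha hq ih hqa h
    obtain ⟨l, c, hc, hl, he⟩ := ih ha (fun g hg hga => h g hg (hga.trans (dvd_mul_left _ _)))
    have hqi : Irreducible q := hq.irreducible
    obtain ⟨G, c0, hc0, hG, hGd, hGe⟩ := fac_prim q hq.ne_zero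
    refine ⟨G :: l, c0 * c, mul_ne_zero hc0 hc, ?_, ?_⟩
    · intro G' hG'
      rcases List.mem_cons.1 hG' with rfl | h1
      · refine ⟨fac_mod hp _ hG, ?_⟩
        rw [hGd]
        exact h q hqi (dvd_mul_right _ _)
      · exact hl _ h1
    · rw [List.prod_cons, Polynomial.map_mul, ← hGe, ← he, C_mul]
      ring

end Pool.Agent.Lib.MP_06b9d2_nt.MF
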