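import Pool.Agent.Lib.MP_06b9d2_nt.ME.EvD
import Pool.Agent.Lib.MP_06b9d2_nt.ME.PhM

/-!
Module MF-Grp (MP_06b9d2_nt, Maeda, large irreducible factors). The function `ph p 1 0` in the case of the group `ℤ`.

`Pr 1` has only the element `two 1`, so a vector is a constant function. `A = (x, y)`: `Su p 1 A` (the norm is a power of `2`), `ev p 1 A` is `m` or `-m`: by `val_two` (for `(x, y)` if `4 ∣ x - y`, for `(x, -y)` if `4 ∣ x + y`; one of the two holds) and `val_sum` (sum `m + 2`). Replacing `y` by `-y` we may assume `ev p 1 A = m`, so `m ∈ Fl p 1 0`.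
If `t ≥ 1` and `t ∈ Fl p 1 0` then `t ≥ m`: take a primitive `B` with `ev p 1 B = t` (`prim`); `both_odd`, `val_two`, `val_sum`: `B.1`, `B.2` are odd, `padicValInt 2 (nm p B) = t + 2` and `nm p B` is a power of `2` (`Su`, `2 * 1 = 2`), so `B.1 ^ 2 + p B.2 ^ 2 = 2 ^ (t + 2)`, and `hmin`. `Fl p 1 0` is closed under addition and negation (`Fl_add`, `Fl_neg`), so `t ∈ Fl p 1 0 ↔ m ∣ t` (division with remainder). `ph` is additive (`ph_add`), so `ph (m c) = c * ph m` (induction / `map_zsmul`-like), outside it is `0` (`ph_out`). `u = ph m = y / x ≠ 0` (`ph_eq`).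
-/

namespace Pool.Agent.Lib.MP_06b9d2_nt.MF

open Pool.Agent.Lib.MP_06b9d2_nt.ME

private theorem uniq (l : Pr 1) : l = two 1 := by
  have h1 : (l : ℕ) ∣ 2 := Nat.dvd_of_mem_primeFactors l.2
  have h2 : (l : ℕ).Prime := Nat.prime_of_mem_primeFactors l.2
  exact Subtype.ext ((Nat.prime_dvd_prime_iff_eq h2 Nat.prime_two).1 h1)

private theorem memA {p m : ℕ} (h8 : 8 * 1 ∣ p + 1) (x y : ℤ) (hx : Odd x) (hy : Odd y)
    (h : x ^ 2 + p * y ^ 2 = 2 ^ (m + 2)) :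
    ∃ y' : ℤ, (y' = y ∨ y' = -y) ∧ Su p 1 (x, y') ∧ ev p 1 (x, y') = fun _ => (m : ℤ) := by
  obtain ⟨y', hy', h4⟩ : ∃ y' : ℤ, (y' = y ∨ y' = -y) ∧ (4 : ℤ) ∣ x - y' := by
    obtain ⟨a, ha⟩ := hx
    obtain ⟨b, hb⟩ := hy
    have h5 : (4 : ℤ) ∣ x - y ∨ (4 : ℤ) ∣ x - -y := by omega
    rcases h5 with h5 | h5
    · exact ⟨y, Or.inl rfl, h5⟩
    · exact ⟨-y, Or.inr rfl, h5⟩
  have hodd : Odd y' := by
    rcases hy' with h5 | h5
    · rw [h5]; exact hy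
    · rw [h5]; exact hy.neg
  have hnm : nm p (x, y') = 2 ^ (m + 2) := by
    show x ^ 2 + p * y' ^ 2 = 2 ^ (m + 2)
    have h5 : y' ^ 2 = y ^ 2 := by
      rcases hy' with h5 | h5
      · rw [h5]
      · rw [h5]; ring
    rw [h5, h]
  have hne : nm p (x, y') ≠ 0 := by
    rw [hnm]
    positivity
  refine ⟨y', hy', ⟨hne, fun q hq hd => ?_⟩, ?_⟩
  · rw [hnm] at hd
    have h5 : q ∣ 2 ^ (m + 2) := by exact_mod_cast hd
    rw [mul_one]
    exact hq.dvd_of_dvd_pow h5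
  · funext l
    rw [uniq l]
    have e1 := val_two h8 (x, y') hx hodd h4 (two 1) rfl
    have e2 := val_sum h8 (x, y') hne (two 1)
    have e3 : padicValInt ((two 1 : Pr 1) : ℕ) (nm p (x, y')) = m + 2 := by
      rw [hnm]
      show padicValNat 2 ((2 : ℤ) ^ (m + 2)).natAbs = m + 2
      rw [Int.natAbs_pow]
      exact padicValNat.prime_pow (m + 2)
    rw [e3, e1] at e2
    unfold ev
    rw [e1]
    omega

private theorem exB {p t : ℕ} (h8 : 8 * 1 ∣ p + 1) (ht : 1 ≤ t)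
    (hv : (fun _ => (t : ℤ)) ∈ Fl p 1 0) :
    ∃ x y : ℤ, Odd x ∧ Odd y ∧ x ^ 2 + p * y ^ 2 = 2 ^ (t + 2) := by
  obtain ⟨A₀, hS, _, hev⟩ := hv
  obtain ⟨B, g, _, _, hgcd, hSB, hevB⟩ := prim h8 hS
  rw [hev] at hevB
  have h1 := congrFun hevB (two 1)
  have h1' : (((B.1 : ℤ_[((two 1 : Pr 1) : ℕ)]) -
      (B.2 : ℤ_[((two 1 : Pr 1) : ℕ)]) * tt p 1 (two 1)).valuation : ℤ) -
      (((B.1 : ℤ_[((two 1 : Pr 1) : ℕ)]) +
      (B.2 : ℤ_[((two 1 : Pr 1) : ℕ)]) * tt p 1 (two 1)).valuation : ℤ) = t := h1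
  obtain ⟨o1, o2, h4⟩ := both_odd h8 B hgcd hSB.1 (two 1) rfl (by omega)
  have e1 := val_two h8 B o1 o2 h4 (two 1) rfl
  have e2 := val_sum h8 B hSB.1 (two 1)
  have e3 : padicValInt ((two 1 : Pr 1) : ℕ) (nm p B) = t + 2 := by omega
  have hpos : 0 ≤ nm p B := by
    unfold nm
    positivity
  have hM : (nm p B).natAbs ≠ 0 := Int.natAbs_ne_zero.2 hSB.1
  have h5 := Nat.eq_prime_pow_of_unique_prime_dvd (n := (nm p B).natAbs) (p := 2) hM
    (fun {d} hd hdd => by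
      have h6 : (d : ℤ) ∣ nm p B := Int.natCast_dvd.2 hdd
      have h7 := hSB.2 d hd h6
      rw [mul_one] at h7
      exact (Nat.prime_dvd_prime_iff_eq hd Nat.prime_two).1 h7)
  have h6 : padicValNat 2 (nm p B).natAbs = t + 2 := e3
  rw [h5, padicValNat.prime_pow] at h6
  refine ⟨B.1, B.2, o1, o2, ?_⟩
  have h7 : ((nm p B).natAbs : ℤ) = nm p B := Int.natAbs_of_nonneg hpos
  rw [h6] at h5
  have h8' : nm p B = ((2 ^ (t + 2) : ℕ) : ℤ) := by rw [← h7, h5]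
  have h9 : nm p B = 2 ^ (t + 2) := by
    rw [h8']
    push_cast
    rfl
  exact h9

/-- the integers in `Fl p 1 0` -/
private def Hs (p : ℕ) (h8 : 8 * 1 ∣ p + 1) : AddSubgroup ℤ where
  carrier := {t | (fun _ => t) ∈ Fl p 1 0}
  add_mem' := by
    intro a b ha hb
    exact Fl_add h8 ha hb
  zero_mem' := Fl_zero p 1 0 one_ne_zero
  neg_mem' := by
    intro a ha
    exact Fl_neg ha

private theorem mem_Hs {p : ℕ} (h8 : 8 * 1 ∣ p + 1) (t : ℤ) :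
    t ∈ Hs p h8 ↔ (fun _ => t) ∈ Fl p 1 0 := Iff.rfl

private theorem mem_iff {p m : ℕ} (h8 : 8 * 1 ∣ p + 1) (hm : 1 ≤ m) (hmem : (m : ℤ) ∈ Hs p h8)
    (hmin : ∀ (m' : ℕ) (x' y' : ℤ), 1 ≤ m' → m' < m → Odd x' → Odd y' →
      x' ^ 2 + p * y' ^ 2 ≠ 2 ^ (m' + 2)) (t : ℤ) : t ∈ Hs p h8 ↔ (m : ℤ) ∣ t := by
  constructor
  · intro ht
    have hmul : (m : ℤ) * (t / m) ∈ Hs p h8 := by
      rw [mul_comm, ← smul_eq_mul]
      exact AddSubgroup.zsmul_mem _ hmem _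
    have hr : t % m ∈ Hs p h8 := by
      have h1 : t % m = t - m * (t / m) := Int.emod_def t m
      rw [h1]
      exact AddSubgroup.sub_mem _ ht hmul
    have hm0 : (0 : ℤ) < m := by exact_mod_cast hm
    have h2 := Int.emod_nonneg t hm0.ne'
    have h3 := Int.emod_lt_of_pos t hm0
    by_contra hc
    have h4 : t % m ≠ 0 := fun h => hc (Int.dvd_of_emod_eq_zero h)
    obtain ⟨k, hk⟩ := Int.eq_ofNat_of_zero_le h2
    rw [hk] at hr h3 h4
    have hk1 : 1 ≤ k := by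
      rcases Nat.eq_zero_or_pos k with h5 | h5
      · rw [h5] at h4
        exact absurd rfl h4
      · exact h5
    have hk2 : k < m := by exact_mod_cast h3
    obtain ⟨x', y', o1, o2, h5⟩ := exB h8 hk1 hr
    exact hmin k x' y' hk1 hk2 o1 o2 h5
  · rintro ⟨c, hc⟩
    rw [hc, mul_comm, ← smul_eq_mul]
    exact AddSubgroup.zsmul_mem _ hmem _

theorem grp {p m : ℕ} [Fact p.Prime] (h8 : p % 8 = 7) (hm : 1 ≤ m) (x y : ℤ) (hx : Odd x)
    (hy : Odd y) (h : x ^ 2 + p * y ^ 2 = 2 ^ (m + 2)) (hpy : ¬ (p : ℤ) ∣ y)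
    (hmin : ∀ (m' : ℕ) (x' y' : ℤ), 1 ≤ m' → m' < m → Odd x' → Odd y' →
      x' ^ 2 + p * y' ^ 2 ≠ 2 ^ (m' + 2)) :
    ∃ u : ZMod p, u ≠ 0 ∧ ∀ t : ℤ, ph p 1 0 (fun _ => t) =
      if (m : ℤ) ∣ t then ((t / m : ℤ) : ZMod p) * u else 0 := by
  have h8' : 8 * 1 ∣ p + 1 := by omega
  obtain ⟨y', hy', hSu, hev⟩ := memA h8' x y hx hy h
  have hmem : (m : ℤ) ∈ Hs p h8' := ⟨(x, y'), hSu, by rw [pow_zero]; exact one_dvd _, hev⟩
  have hiff := mem_iff h8' hm hmem hmin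
  have hpy' : ¬ (p : ℤ) ∣ y' := by
    rcases hy' with h5 | h5
    · rw [h5]; exact hpy
    · rw [h5, dvd_neg]; exact hpy
  refine ⟨ph p 1 0 (fun _ => (m : ℤ)), ?_, fun t => ?_⟩
  · have h1 := ph_eq h8' 0 hSu (by rw [pow_zero]; exact one_dvd _)
    rw [hev, pow_zero, Int.ediv_one] at h1
    rw [h1]
    refine mul_ne_zero ?_ (inv_ne_zero (phi_cast_ne h8' hSu))
    show ((y' : ℤ) : ZMod p) ≠ 0
    rw [Ne, ZMod.intCast_zmod_eq_zero_iff_dvd]
    exact hpy'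
  · split_ifs with hd
    · have hadd : ∀ a b : ℤ, ph p 1 0 (fun _ => (m : ℤ) * (a + b)) =
          ph p 1 0 (fun _ => (m : ℤ) * a) + ph p 1 0 (fun _ => (m : ℤ) * b) := by
        intro a b
        have e1 : (fun _ : Pr 1 => (m : ℤ) * (a + b)) =
            (fun _ => (m : ℤ) * a) + (fun _ => (m : ℤ) * b) := by
          funext l
          show (m : ℤ) * (a + b) = (m : ℤ) * a + (m : ℤ) * b
          ring
        rw [e1]
        exact ph_add h8' ((hiff _).2 (dvd_mul_right _ _)) ((hiff _).2 (dvd_mul_right _ _))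
      set f : ℤ →+ ZMod p := AddMonoidHom.mk' (fun a => ph p 1 0 (fun _ => (m : ℤ) * a)) hadd
        with hf
      have e2 : f (t / m) = ((t / m : ℤ) : ZMod p) * f 1 := by
        have e3 : f ((t / m) • (1 : ℤ)) = (t / m) • f 1 := map_zsmul f _ _
        rw [smul_eq_mul, mul_one, zsmul_eq_mul] at e3
        exact e3
      have e4 : f (t / m) = ph p 1 0 (fun _ => t) := by
        show ph p 1 0 (fun _ => (m : ℤ) * (t / m)) = _
        rw [Int.mul_ediv_cancel' hd]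
      have e5 : f 1 = ph p 1 0 (fun _ => (m : ℤ)) := by
        show ph p 1 0 (fun _ => (m : ℤ) * 1) = _
        rw [mul_one]
      rw [← e4, e2, e5]
    · exact ph_out (fun hc => hd ((hiff t).1 hc))

theorem min_of_prime {p m : ℕ} [Fact p.Prime] (h8 : p % 8 = 7) (hp7 : p ≠ 7) (hm : m.Prime)
    (x y : ℤ) (hx : Odd x) (hy : Odd y) (h : x ^ 2 + p * y ^ 2 = 2 ^ (m + 2)) :
    ∀ (m' : ℕ) (x' y' : ℤ), 1 ≤ m' → m' < m → Odd x' → Odd y' →
      x' ^ 2 + p * y' ^ 2 ≠ 2 ^ (m' + 2) := by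
  -- if not: `m` and `m'` are in the subgroup `Fl p 1 0` of `ℤ`, so `1` is (`m` is prime, `m' < m`),
  -- so there are odd `a`, `c` with `a ^ 2 + p c ^ 2 = 8`, so `p ≤ 7`
  intro m' x' y' h1 h2 hx' hy' h'
  have h8' : 8 * 1 ∣ p + 1 := by omega
  obtain ⟨z, _, hSu, hev⟩ := memA h8' x y hx hy h
  have hmem : (m : ℤ) ∈ Hs p h8' := ⟨(x, z), hSu, by rw [pow_zero]; exact one_dvd _, hev⟩
  obtain ⟨z', _, hSu', hev'⟩ := memA h8' x' y' hx' hy' h'
  have hmem' : (m' : ℤ) ∈ Hs p h8' := ⟨(x', z'), hSu', by rw [pow_zero]; exact one_dvd _, hev'⟩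
  have hcop : Nat.Coprime m m' := (Nat.Prime.coprime_iff_not_dvd hm).2 fun hd =>
    absurd (Nat.le_of_dvd (by omega) hd) (by omega)
  have hb := Nat.gcd_eq_gcd_ab m m'
  rw [Nat.Coprime] at hcop
  rw [hcop] at hb
  have hone : ((1 : ℕ) : ℤ) ∈ Hs p h8' := by
    rw [hb, mul_comm (m : ℤ), mul_comm (m' : ℤ), ← smul_eq_mul, ← smul_eq_mul]
    exact AddSubgroup.add_mem _ (AddSubgroup.zsmul_mem _ hmem _)
      (AddSubgroup.zsmul_mem _ hmem' _)
  obtain ⟨a, c, _, hc, hac⟩ := exB h8' le_rfl hone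
  have hc1 : 1 ≤ c ^ 2 := by
    have hc0 : c ≠ 0 := by
      rintro rfl
      exact absurd hc (by decide)
    have : 0 < c ^ 2 := by positivity
    omega
  have hp15 : (15 : ℤ) ≤ p := by
    have : 15 ≤ p := by omega
    exact_mod_cast this
  have ha : 0 ≤ a ^ 2 := sq_nonneg a
  norm_num at hac
  have : (15 : ℤ) * 1 ≤ p * c ^ 2 := mul_le_mul hp15 hc1 (by norm_num) (by linarith)
  linarith

end Pool.Agent.Lib.MP_06b9d2_nt.MF
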