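import Pool.Agent.Lib.L1.SpanC
import Pool.Agent.Lib.L1.Eis
import Pool.Agent.Lib.MP_06b9d2_nt.MD.HeckeQ

/-!
Module MF-Rat (MP_06b9d2_nt, Maeda, large irreducible factors). The characteristic polynomial of `T_2` is rational.

`k ≥ 1`; let `K = k.toNat`. For `g ∈ ML ℚ K` with constant coefficient `0` there is a cusp form with the `q`-expansion `g` (in `ℂ⟦X⟧`): `exists_form_of_mem` (`L1/Eis.lean`; import it) and `toCuspForm` (see the last step of `MD/Real.lean`). The series `bas ℚ K j`, `1 ≤ j < dd K`, have constant coefficient `0` (`coeff_bas_lt`); let `b_j` be the cusp forms. They are a basis: every cusp form `f` has `q`-expansion in `ML ℂ K` (`form_mem_ML`), a combination of the `bas ℂ K j`, `j < dd K`, and the coefficient of `bas ℂ K 0` is the constant coefficient `0`; independence: `linearIndependent_bas`, and the `q`-expansion is injective (`qExpansion_injective`-like, for `1`-periodic forms; see `L1` or Mathlib `ModularFormClass.qExpansion` lemmas). `T b_j` has rational coefficients (`hecke_q`), so it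 is `PowerSeries.map` of an element of `ML ℚ K` (`form_descend`/`descend`), so its coordinates in the basis are rational. So the matrix of `T` in this basis is the image of a rational matrix `A` and `LinearMap.charpoly T = A.charpoly.map` (`LinearMap.charpoly_toMatrix`, `Matrix.charpoly_map`).
-/

namespace Pool.Agent.Lib.MP_06b9d2_nt.MF

open UpperHalfPlane
open scoped MatrixGroups ModularForm

open Pool.Agent.L1

/-- The `q`-expansion as a linear map. -/
private noncomputable def qL (k : ℤ) : CuspForm 𝒮ℒ k →ₗ[ℂ] PowerSeries ℂ where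
  toFun f := qExpansion 1 (CuspForm.toModularFormₗ f)
  map_add' f g := by
    rw [map_add, FunLike.coe_add,
      ModularForm.qExpansion_add one_pos one_mem_strictPeriods_SL]
  map_smul' c f := by
    rw [map_smul, FunLike.coe_smul,
      ModularForm.qExpansion_smul one_pos one_mem_strictPeriods_SL]
    rfl

private theorem qL_apply {k : ℤ} (f : CuspForm 𝒮ℒ k) : qL k f = qExpansion 1 f := rfl

private theorem qL_inj {k : ℤ} {f g : CuspForm 𝒮ℒ k} (h : qL k f = qL k g) : f = g := by
  have h1 := (nice_modularForm (CuspForm.toModularFormₗ f)).ext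
    (nice_modularForm (CuspForm.toModularFormₗ g)) h
  exact CuspForm.toModularFormₗ_injective (DFunLike.coe_injective h1)

/-- the cusp forms with rational `q`-expansion -/
private def RS (k : ℤ) : Set (CuspForm 𝒮ℒ k) :=
  {f | ∃ g : PowerSeries ℚ, PowerSeries.map (algebraMap ℚ ℂ) g = qL k f}

private theorem span_RS {k : ℤ} (hk : 1 ≤ k) : ⊤ ≤ Submodule.span ℂ (RS k) := by
  intro f _
  set K := k.toNat with hK
  have hkK : k = (K : ℤ) := by omega
  have hmem := form_mem_ML K k hkK (CuspForm.toModularFormₗ f)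
  obtain ⟨c, hc⟩ := mem_ML_iff.mp hmem
  have hb : ∀ j : ℕ, ∃ b : CuspForm 𝒮ℒ k, (1 ≤ j → j < dd K → qL k b = bas ℂ K j) ∧
      b ∈ RS k := by
    intro j
    by_cases h : 1 ≤ j ∧ j < dd K
    · obtain ⟨g, hg⟩ := exists_form_of_mem (k := K) (g := bas ℂ K j)
        (Submodule.subset_span ⟨⟨j, h.2⟩, rfl⟩) k hkK
      have h0 : (qExpansion 1 g).coeff 0 = 0 := by
        rw [hg]
        exact coeff_bas_lt h.1
      have h1 : qL k (ModularForm.toCuspForm g h0) = bas ℂ K j := by
        rw [← hg]
        rfl
      exact ⟨ModularForm.toCuspForm g h0, fun _ _ => h1, bas ℚ K j, by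
        rw [h1]; exact map_bas _ _ _⟩
    · exact ⟨0, fun h1 h2 => absurd ⟨h1, h2⟩ h, 0, by rw [map_zero, map_zero]⟩
  choose b hb1 hb2 using hb
  have hf : f = ∑ j ∈ Finset.range (dd K), (if j = 0 then 0 else c j) • b j := by
    apply qL_inj
    rw [map_sum]
    change qExpansion 1 (CuspForm.toModularFormₗ f) = _
    rw [hc]
    refine Finset.sum_congr rfl fun j hj => ?_
    rw [map_smul]
    split_ifs with h0
    · subst h0
      have h1 : 0 < dd K := Finset.mem_range.mp hj
      have h2 : PowerSeries.coeff 0 (qExpansion 1 (f : ℍ → ℂ)) = 0 :=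
        CuspFormClass.qExpansion_coeff_zero f one_pos one_mem_strictPeriods_SL
      have h3 : PowerSeries.coeff 0 (qExpansion 1 (CuspForm.toModularFormₗ f)) = c 0 := by
        rw [hc, map_sum, Finset.sum_eq_single 0]
        · rw [PowerSeries.coeff_smul, coeff_bas_self, smul_eq_mul, mul_one]
        · intro j _ hj
          rw [PowerSeries.coeff_smul, coeff_bas_lt (by omega), smul_zero]
        · intro h
          exact absurd hj h
      have h4 : c 0 = 0 := by
        rw [← h3]
        exact h2
      rw [h4, zero_smul, zero_smul]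
    · rw [hb1 j (by omega) (Finset.mem_range.mp hj)]
  rw [hf]
  exact Submodule.sum_mem _ fun j _ => Submodule.smul_mem _ _ (Submodule.subset_span (hb2 j))

theorem rat {k : ℤ} (hk : 1 ≤ k) [Module.Finite ℂ (CuspForm 𝒮ℒ k)]
    {T : CuspForm 𝒮ℒ k →ₗ[ℂ] CuspForm 𝒮ℒ k} (hT : IsHecke k 2 T) :
    ∃ P : Polynomial ℚ, P.map (algebraMap ℚ ℂ) = LinearMap.charpoly T := by
  classical
  set B := Module.Basis.ofSpan (span_RS hk) with hB
  have hBR : ∀ i, B i ∈ RS k := fun i =>
    Module.Basis.ofSpan_subset (span_RS hk) ⟨i, rfl⟩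
  have hfin : Finite _ := Module.Finite.finite_basis B
  have hfint := Fintype.ofFinite (((linearIndepOn_empty ℂ id).extend (Set.empty_subset (RS k)) :
    Set (CuspForm 𝒮ℒ k)))
  -- rational coordinates
  obtain ⟨π, hπ⟩ : ∃ π : ℂ →ₗ[ℚ] ℚ, π 1 = 1 := by
    obtain ⟨g, hg⟩ := (LinearMap.toSpanSingleton ℚ ℂ 1).exists_leftInverse_of_injective
      (LinearMap.ker_toSpanSingleton ℚ one_ne_zero)
    exact ⟨g, by simpa using LinearMap.congr_fun hg 1⟩
  have hcoord : ∀ f ∈ RS k, ∀ i, ∃ r : ℚ, (algebraMap ℚ ℂ) r = B.repr f i := by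
    intro f hf
    obtain ⟨g, hg⟩ := hf
    choose G hG using hBR
    have h1 : ∑ i, B.repr f i • B i = f := B.sum_repr f
    have h2 : ∀ m, PowerSeries.coeff m g = ∑ i, π (B.repr f i) * PowerSeries.coeff m (G i) := by
      intro m
      have h3 := congrArg (fun F => π (PowerSeries.coeff m (qL k F))) h1
      simp only [map_sum, map_smul, PowerSeries.coeff_smul, ← hG, ← hg, PowerSeries.coeff_map,
        smul_eq_mul] at h3
      have h4 : ∀ (z : ℂ) (r : ℚ), π (z * (algebraMap ℚ ℂ) r) = π z * r := by
        intro z r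
        rw [mul_comm z, ← Algebra.smul_def, map_smul, smul_eq_mul, mul_comm]
      have h5 : π ((algebraMap ℚ ℂ) (PowerSeries.coeff m g)) = PowerSeries.coeff m g := by
        rw [← one_mul ((algebraMap ℚ ℂ) (PowerSeries.coeff m g)), h4, hπ, one_mul]
      simp only [h4, h5] at h3
      exact h3.symm
    have h6 : ∑ i, (algebraMap ℚ ℂ (π (B.repr f i))) • B i = f := by
      apply qL_inj
      rw [map_sum, ← hg]
      ext m
      rw [map_sum, PowerSeries.coeff_map, h2 m, map_sum]
      refine Finset.sum_congr rfl fun i _ => ?_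
      rw [map_smul, ← hG, PowerSeries.coeff_smul, PowerSeries.coeff_map, smul_eq_mul, map_mul]
    intro i
    refine ⟨π (B.repr f i), ?_⟩
    have h7 := congrArg (fun F => B.repr F i) h6
    simp only [map_sum, map_smul, Module.Basis.repr_self, Finsupp.smul_single, smul_eq_mul,
      mul_one, Finsupp.finsetSum_apply] at h7
    rw [Finset.sum_eq_single i] at h7
    · simpa using h7
    · intro j _ hj
      rw [Finsupp.single_eq_of_ne hj.symm]
    · intro h
      exact absurd (Finset.mem_univ i) h
  have hT2 : ∀ f ∈ RS k, T f ∈ RS k := by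
    rintro f ⟨g, hg⟩
    refine ⟨PowerSeries.mk fun m => PowerSeries.coeff (2 * m) g +
      (2 : ℚ) ^ (k - 1) * (if 2 ∣ m then PowerSeries.coeff (m / 2) g else 0), ?_⟩
    have h1 : ∀ m, PowerSeries.coeff m (qExpansion 1 (f : ℍ → ℂ)) =
        algebraMap ℚ ℂ (PowerSeries.coeff m g) := by
      intro m
      rw [← qL_apply, ← hg, PowerSeries.coeff_map]
    ext m
    rw [qL_apply, hecke_q hT f m, PowerSeries.coeff_map, PowerSeries.coeff_mk, map_add, map_mul,
      h1, map_zpow₀, map_ofNat]
    split_ifs with h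
    · rw [h1]
    · rw [map_zero]
  choose R hR using fun i j => hcoord (T (B j)) (hT2 _ (hBR j)) i
  refine ⟨(Matrix.of R).charpoly, ?_⟩
  rw [← Matrix.charpoly_map, ← LinearMap.charpoly_toMatrix T B]
  congr 1
  ext i j
  rw [Matrix.map_apply, Matrix.of_apply, hR, LinearMap.toMatrix_apply]

end Pool.Agent.Lib.MP_06b9d2_nt.MF
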