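import Pool.Agent.Lib.MP_06b9d2_nt.MF.Seq2

/-!
Module MF-Root (MP_06b9d2_nt, Maeda, large irreducible factors). Roots of unity give roots.

`U` is additive and commutes with translations. Let `δ t = [m ∣ t]`. `φ (t + m) - φ t = u δ t`, so `∑ q_i (U ^ i δ) t = 0` for all `t` (`u ≠ 0`). In `K`: `∑_{c < m} ζ ^ c δ (t - c) = ζ ^ t` (zpow; `ζ ≠ 0`, `ζ ^ m = 1`, exactly one `c` with `c ≡ t` modulo `m`). So with `g t = ζ ^ t`: `∑ q_i (U ^ i g) t = 0` and `U g = (ζ + ζ⁻¹) g`. Take `t = 0`.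
-/

namespace Pool.Agent.Lib.MP_06b9d2_nt.MF

private theorem iter_sum {R : Type} [CommRing R] (s : Finset ℕ) (c : ℕ → R) (i : ℕ) :
    ∀ (φ : ℤ → R) (t : ℤ), (Uf^[i] (fun t : ℤ => ∑ j ∈ s, c j * φ (t - j))) t =
      ∑ j ∈ s, c j * (Uf^[i] φ) (t - j) := by
  induction i with
  | zero => intro φ t; rfl
  | succ i ih =>
    intro φ t
    rw [Function.iterate_succ_apply, Function.iterate_succ_apply]
    have : Uf (fun t : ℤ => ∑ j ∈ s, c j * φ (t - j)) =
        fun t : ℤ => ∑ j ∈ s, c j * (Uf φ) (t - j) := by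
      funext t
      simp only [Uf]
      rw [← Finset.sum_add_distrib]
      refine Finset.sum_congr rfl fun j _ => ?_
      rw [mul_add]
      congr 3 <;> ring
    rw [this, ih]

private theorem iter_diff {R : Type} [CommRing R] (m : ℤ) (i : ℕ) :
    ∀ (φ : ℤ → R) (t : ℤ), (Uf^[i] (fun t : ℤ => φ (t + m) - φ t)) t =
      (Uf^[i] φ) (t + m) - (Uf^[i] φ) t := by
  induction i with
  | zero => intro φ t; rfl
  | succ i ih =>
    intro φ t
    rw [Function.iterate_succ_apply, Function.iterate_succ_apply]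
    have : Uf (fun t : ℤ => φ (t + m) - φ t) = fun t : ℤ => (Uf φ) (t + m) - (Uf φ) t := by
      funext t
      simp only [Uf]
      rw [show t + 1 + m = t + m + 1 by ring, show t - 1 + m = t + m - 1 by ring]
      ring
    rw [this, ih]

private theorem iter_map {R S : Type} [CommRing R] [CommRing S] (f : R →+* S) (i : ℕ) :
    ∀ (φ : ℤ → R) (t : ℤ), (Uf^[i] (fun t : ℤ => f (φ t))) t = f ((Uf^[i] φ) t) := by
  induction i with
  | zero => intro φ t; rfl
  | succ i ih =>
    intro φ t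
    rw [Function.iterate_succ_apply, Function.iterate_succ_apply]
    have : Uf (fun t : ℤ => f (φ t)) = fun t : ℤ => f (Uf φ t) := by
      funext t
      simp only [Uf, map_add]
    rw [this, ih]

private theorem iter_zpow {K : Type} [Field K] (ζ : K) (hζ : ζ ≠ 0) (i : ℕ) :
    ∀ (v : K) (t : ℤ), (Uf^[i] (fun t : ℤ => v * ζ ^ t)) t = v * (ζ + ζ⁻¹) ^ i * ζ ^ t := by
  induction i with
  | zero => intro v t; simp
  | succ i ih =>
    intro v t
    rw [Function.iterate_succ_apply]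
    have : Uf (fun t : ℤ => v * ζ ^ t) = fun t : ℤ => (v * (ζ + ζ⁻¹)) * ζ ^ t := by
      funext t
      simp only [Uf]
      rw [zpow_add_one₀ hζ, zpow_sub_one₀ hζ]
      ring
    rw [this, ih]
    ring

theorem root {p m : ℕ} [Fact p.Prime] (hm : 1 ≤ m) (u : ZMod p) (hu : u ≠ 0) (φ : ℤ → ZMod p)
    (hφ : ∀ t : ℤ, φ t = if (m : ℤ) ∣ t then ((t / m : ℤ) : ZMod p) * u else 0)
    (q : ℕ → ZMod p) (D : ℕ)
    (h : ∀ t : ℤ, ∑ i ∈ Finset.range (D + 1), q i * (Uf^[i] φ) t = 0)
    {K : Type} [Field K] [Algebra (ZMod p) K] (ζ : K) (hζ : ζ ^ m = 1) :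
    ∑ i ∈ Finset.range (D + 1), algebraMap (ZMod p) K (q i) * (ζ + ζ⁻¹) ^ i = 0 := by
  have hz0 : ζ ≠ 0 := by
    rintro rfl
    rw [zero_pow (by omega)] at hζ
    exact zero_ne_one hζ
  have hm0 : (m : ℤ) ≠ 0 := by exact_mod_cast (by omega : m ≠ 0)
  have hmpos : (0 : ℤ) < m := by exact_mod_cast (by omega : 0 < m)
  set f := algebraMap (ZMod p) K with hf
  -- the difference
  have hd : ∀ t : ℤ, φ (t + m) - φ t = if (m : ℤ) ∣ t then u else 0 := by
    intro t
    rw [hφ, hφ]
    by_cases ht : (m : ℤ) ∣ t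
    · have ht' : (m : ℤ) ∣ t + m := dvd_add ht (dvd_refl _)
      rw [if_pos ht, if_pos ht', if_pos ht, Int.add_ediv_of_dvd_left ht, Int.ediv_self hm0]
      push_cast
      ring
    · have ht' : ¬ (m : ℤ) ∣ t + m := fun h' => ht ((dvd_add_left (dvd_refl _)).1 h')
      rw [if_neg ht, if_neg ht', if_neg ht, sub_zero]
  -- the relation for the difference
  have h1 : ∀ t : ℤ, ∑ i ∈ Finset.range (D + 1),
      f (q i) * (Uf^[i] (fun t : ℤ => f (φ (t + m) - φ t))) t = 0 := by
    intro t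
    have e : ∀ i ∈ Finset.range (D + 1),
        f (q i) * (Uf^[i] (fun t : ℤ => f (φ (t + m) - φ t))) t =
        f (q i * (Uf^[i] φ) (t + m) - q i * (Uf^[i] φ) t) := by
      intro i _
      rw [iter_map f i (fun t : ℤ => φ (t + m) - φ t), iter_diff (m : ℤ) i φ t, ← map_mul, mul_sub]
    rw [Finset.sum_congr rfl e, ← map_sum, Finset.sum_sub_distrib, h, h, sub_zero, map_zero]
  -- the sum of translates
  have h2 : (fun t : ℤ => ∑ c ∈ Finset.range m, ζ ^ c * f (φ (t - c + m) - φ (t - c))) =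
      fun t : ℤ => f u * ζ ^ t := by
    funext t
    have hr0 : 0 ≤ t % m := Int.emod_nonneg t hm0
    have hrm : t % m < m := Int.emod_lt_of_pos t hmpos
    obtain ⟨r, hr⟩ := Int.eq_ofNat_of_zero_le hr0
    have hrlt : r < m := by
      have : (r : ℤ) < m := by rw [← hr]; exact hrm
      exact_mod_cast this
    rw [Finset.sum_eq_single r]
    · rw [hd, if_pos]
      · have ht : t = (m : ℤ) * (t / m) + r := by
          have := Int.mul_ediv_add_emod t m
          rw [hr] at this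
          exact this.symm
        have hz : ζ ^ t = ζ ^ r := by
          conv_lhs => rw [ht]
          rw [zpow_add₀ hz0, zpow_mul, zpow_natCast, hζ, one_zpow, one_mul, zpow_natCast]
        rw [hz]
        ring
      · rw [← hr]
        exact Int.dvd_self_sub_emod
    · intro c hc hcr
      rw [hd, if_neg, map_zero, mul_zero]
      intro hdvd
      apply hcr
      have hc' : c < m := Finset.mem_range.1 hc
      have h3 : (m : ℤ) ∣ t - r := by rw [← hr]; exact Int.dvd_self_sub_emod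
      have h4 : (m : ℤ) ∣ (r : ℤ) - c := by
        have := dvd_sub hdvd h3
        rw [show t - (c : ℤ) - (t - r) = (r : ℤ) - c by ring] at this
        exact this
      have h5 : (r : ℤ) ≡ c [ZMOD m] := by
        exact (Int.modEq_iff_dvd.2 (by rw [show (c : ℤ) - r = -((r : ℤ) - c) by ring]; exact (dvd_neg.2 h4)))
      have h6 := (Int.natCast_modEq_iff.1 h5)
      have h7 : r % m = c % m := h6
      rw [Nat.mod_eq_of_lt hrlt, Nat.mod_eq_of_lt hc'] at h7
      exact h7.symm
    · intro hr'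
      exact absurd (Finset.mem_range.2 hrlt) hr'
  have h3 : ∀ i : ℕ, (Uf^[i] (fun t : ℤ => f u * ζ ^ t)) 0 =
      ∑ c ∈ Finset.range m, ζ ^ c * (Uf^[i] (fun t : ℤ => f (φ (t + m) - φ t))) (0 - c) := by
    intro i
    rw [← h2]
    exact iter_sum (Finset.range m) (fun c => ζ ^ c) i (fun t : ℤ => f (φ (t + m) - φ t)) 0
  have h4 : ∑ i ∈ Finset.range (D + 1), f (q i) * (Uf^[i] (fun t : ℤ => f u * ζ ^ t)) 0 = 0 := by
    have e : ∀ i ∈ Finset.range (D + 1), f (q i) * (Uf^[i] (fun t : ℤ => f u * ζ ^ t)) 0 =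
        ∑ c ∈ Finset.range m,
          ζ ^ c * (f (q i) * (Uf^[i] (fun t : ℤ => f (φ (t + m) - φ t))) (0 - c)) := by
      intro i _
      rw [h3, Finset.mul_sum]
      refine Finset.sum_congr rfl fun c _ => ?_
      ring
    rw [Finset.sum_congr rfl e, Finset.sum_comm]
    refine Finset.sum_eq_zero fun c _ => ?_
    rw [← Finset.mul_sum, h1, mul_zero]
  have h5 : f u * ∑ i ∈ Finset.range (D + 1), f (q i) * (ζ + ζ⁻¹) ^ i = 0 := by
    rw [← h4, Finset.mul_sum]
    refine Finset.sum_congr rfl fun i _ => ?_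
    rw [iter_zpow ζ hz0 i (f u) 0, zpow_zero]
    ring
  rcases mul_eq_zero.1 h5 with h6 | h6
  · exact absurd ((map_eq_zero f).1 h6) hu
  · exact h6

end Pool.Agent.Lib.MP_06b9d2_nt.MF
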