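import Pool.Agent.Lib.MP_06b9d2_nt.MF.FOne
import Pool.Agent.Lib.MP_06b9d2_nt.MF.Grp
import Pool.Agent.Lib.MP_06b9d2_nt.MF.Root
import Pool.Agent.Lib.MP_06b9d2_nt.MF.Deg
import Pool.Agent.Lib.MP_06b9d2_nt.MF.Rat
import Pool.Agent.Lib.MP_06b9d2_nt.MF.Fac
import Pool.Agent.Lib.MP_06b9d2_nt.ME.Real

/-!
Module MF-Main (MP_06b9d2_nt, Maeda, large irreducible factors). The theorem.

`k ≥ p (p + 1) / 2`: `12 N_0 + (p + 1) (p - 3) / 2 = (p + 1) p / 2` (`8 N_0 = p + 1`), so `ME.realize` with `s = 0` gives `f`, `a`, `c`, `e`, `j`. `φ t = ph p 1 0 (fun _ => t)`; by `form_one`: `coeff (2 ^ i) a = c (2 ^ i) ^ e * 8 * 2 ^ i * φ (i + 1) = κ (2 ^ (e + 1)) ^ i φ (i + 1)`, `κ = 8 c ≠ 0`. `2 ^ ((p - 1) / 2) = 1` in `ZMod p` (`ZMod.exists_sq_eq_two_iff`, `ZMod.euler_criterion`, `p = 7` modulo `8`; or `ME.leg`-like), so `2 ^ (k - 1) = 2 ^ (2 (e + 1))`. `grp` gives `u` and the form of `φ` (so `φ` is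 odd).
`rat` gives `P`, monic, `P ≠ 0`. Suppose no irreducible factor has degree `≥ r`; `fac` gives `l`, `c'`, and `G = l.prod` kills `T` (`LinearMap.aeval_self_charpoly`, `aeval T (G) = aeval T (C c' P)`; compare in `ℂ`: `aeval T (Q : ℤ[X]) = aeval T (Q.map ℂ)`). `seq2` with `Q = G`, `root` for a primitive `m`-th root of unity `ζ` in `K = AlgebraicClosure (ZMod p)` (exists since `p ∤ m`: `HasEnoughRootsOfUnity`/`IsSepClosed`/`exists_isPrimitiveRoot`...; `Type` universe `0` is fine): `∑_i G_i (2 ^ (e + 1)) ^ i λ ^ i = 0`, `λ = ζ + ζ⁻¹`, i.e. `aeval (w λ) (G mod p) = 0` with `w = 2 ^ (e + 1)`. `G mod p` is the product of the `G_i mod p`, `K` is a field, so some `aeval (w λ) (G_i mod p) = 0`, and the polynomial `(G_i mod p).comp (C w * X)` (not `0`, as `w ≠ 0`, of the same degree) has the root `λ`; `deg` gives `r ≤ natDegree ≤ G_i.natDegree < r`.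
-/

namespace Pool.Agent.Lib.MP_06b9d2_nt.MF

open UpperHalfPlane
open scoped MatrixGroups ModularForm

open Pool.Agent.Lib.MP_06b9d2_nt.ME

private theorem mn_weight {p : ℕ} (h8 : p % 8 = 7) (k : ℤ) (hk2 : (p : ℤ) * (p + 1) / 2 ≤ k) :
    12 * (Np p 0 : ℤ) + ((p : ℤ) + 1) * ((p : ℤ) - 3) / 2 ≤ k ∧ 1 ≤ k := by
  obtain ⟨q, hq⟩ : ∃ q, p = 8 * q + 7 := ⟨p / 8, by omega⟩
  have hN : Np p 0 = q + 1 := by
    unfold Np
    rw [mul_zero, zero_add, pow_one, hq]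
    omega
  have h1 : (p : ℤ) * (p + 1) / 2 = (8 * (q : ℤ) + 7) * (4 * q + 4) := by
    rw [hq]
    push_cast
    rw [show (8 * (q : ℤ) + 7) * (8 * (q : ℤ) + 7 + 1) = 2 * ((8 * (q : ℤ) + 7) * (4 * q + 4)) by
      ring]
    exact Int.mul_ediv_cancel_left _ (by norm_num)
  have h2 : ((p : ℤ) + 1) * ((p : ℤ) - 3) / 2 = (8 * (q : ℤ) + 8) * (4 * q + 2) := by
    rw [hq]
    push_cast
    rw [show (8 * (q : ℤ) + 7 + 1) * (8 * (q : ℤ) + 7 - 3) = 2 * ((8 * (q : ℤ) + 8) * (4 * q + 2)) by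
      ring]
    exact Int.mul_ediv_cancel_left _ (by norm_num)
  rw [h1] at hk2
  rw [h2, hN]
  push_cast
  constructor
  · nlinarith
  · nlinarith

private theorem mn_two {p : ℕ} [Fact p.Prime] (h8 : p % 8 = 7) :
    (2 : ZMod p) ≠ 0 ∧ (2 : ZMod p) ^ ((p - 1) / 2) = 1 := by
  have h2 : (2 : ZMod p) ≠ 0 := by
    intro h
    have h3 : ((2 : ℕ) : ZMod p) = 0 := by exact_mod_cast h
    rw [ZMod.natCast_eq_zero_iff] at h3
    have := Nat.le_of_dvd two_pos h3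
    omega
  refine ⟨h2, ?_⟩
  have h3 : IsSquare (2 : ZMod p) := (ZMod.exists_sq_eq_two_iff (by omega)).2 (Or.inr h8)
  have h4 := (ZMod.euler_criterion p h2).1 h3
  have h5 : (p - 1) / 2 = p / 2 := by omega
  rw [h5]
  exact h4

private theorem mn_kill {k : ℤ} [Module.Finite ℂ (CuspForm 𝒮ℒ k)]
    (T : CuspForm 𝒮ℒ k →ₗ[ℂ] CuspForm 𝒮ℒ k) (P : Polynomial ℚ)
    (hP : P.map (algebraMap ℚ ℂ) = LinearMap.charpoly T) (c : ℚ) (G : Polynomial ℤ)
    (h : Polynomial.C c * P = G.map (Int.castRingHom ℚ)) : Polynomial.aeval T G = 0 := by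
  rw [← Polynomial.aeval_map_algebraMap ℂ T G]
  have h1 : G.map (algebraMap ℤ ℂ) = Polynomial.C (c : ℂ) * LinearMap.charpoly T := by
    rw [← hP]
    have h2 : (Int.castRingHom ℚ : ℤ →+* ℚ) = algebraMap ℤ ℚ := rfl
    have h3 : G.map (algebraMap ℤ ℂ) = (G.map (algebraMap ℤ ℚ)).map (algebraMap ℚ ℂ) := by
      rw [Polynomial.map_map, ← IsScalarTower.algebraMap_eq]
    rw [h3, ← h2, ← h, Polynomial.map_mul, Polynomial.map_C]
    rfl
  rw [h1, map_mul, LinearMap.aeval_self_charpoly, mul_zero]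

private theorem mn_root {p : ℕ} [Fact p.Prime] {K : Type} [Field K] [Algebra (ZMod p) K]
    (G : Polynomial ℤ) (w : ZMod p) (lam : K)
    (h : ∑ i ∈ Finset.range (G.natDegree + 1),
      algebraMap (ZMod p) K (((G.coeff i : ℤ) : ZMod p) * w ^ i) * lam ^ i = 0) :
    Polynomial.aeval (algebraMap (ZMod p) K w * lam) (G.map (Int.castRingHom (ZMod p))) = 0 := by
  rw [Polynomial.aeval_eq_sum_range' (n := G.natDegree + 1)
    (Nat.lt_succ_of_le Polynomial.natDegree_map_le)]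
  rw [← h]
  refine Finset.sum_congr rfl fun i _ => ?_
  rw [Polynomial.coeff_map, Algebra.smul_def, mul_pow, map_mul, map_pow, mul_assoc]
  rfl

theorem main {p m r : ℕ} (hp : p.Prime) (h8 : p % 8 = 7) (hm : 1 ≤ m) (x y : ℤ) (hx : Odd x)
    (hy : Odd y) (h : x ^ 2 + p * y ^ 2 = 2 ^ (m + 2)) (hpy : ¬ (p : ℤ) ∣ y)
    (hmin : ∀ (m' : ℕ) (x' y' : ℤ), 1 ≤ m' → m' < m → Odd x' → Odd y' →
      x' ^ 2 + p * y' ^ 2 ≠ 2 ^ (m' + 2)) (hpm : ¬ p ∣ m)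
    (hr : ∀ j, 1 ≤ j → j < r → ¬ m ∣ p ^ j - 1 ∧ ¬ m ∣ p ^ j + 1)
    (k : ℤ) (hk : Even k) (hk2 : (p : ℤ) * (p + 1) / 2 ≤ k) [Module.Finite ℂ (CuspForm 𝒮ℒ k)]
    (T : CuspForm 𝒮ℒ k →ₗ[ℂ] CuspForm 𝒮ℒ k) (hT : IsHecke k 2 T) :
    ∃ P : Polynomial ℚ, P.map (algebraMap ℚ ℂ) = LinearMap.charpoly T ∧
      ∃ g : Polynomial ℚ, Irreducible g ∧ g ∣ P ∧ r ≤ g.natDegree := by
  haveI : Fact p.Prime := ⟨hp⟩
  obtain ⟨hw1, hk1⟩ := mn_weight h8 k hk2
  obtain ⟨h20, h2p⟩ := mn_two (p := p) h8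
  obtain ⟨f, a, c, e, j, ha, hc, hkj, hcoef⟩ := realize h8 0 k hk hw1
  obtain ⟨u, hu, hφ⟩ := grp h8 hm x y hx hy h hpy hmin
  obtain ⟨P, hP⟩ := rat hk1 hT
  refine ⟨P, hP, ?_⟩
  by_contra hcon
  push Not at hcon
  have hP0 : P ≠ 0 := by
    rintro rfl
    rw [Polynomial.map_zero] at hP
    exact (LinearMap.charpoly_monic T).ne_zero hP.symm
  obtain ⟨l, c', hc', hl, hprod⟩ := fac (r := r) hp P hP0 fun g hg hd => hcon g hg hd
  have hG := mn_kill T P hP c' l.prod hprod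
  set φ : ℤ → ZMod p := fun t => ph p 1 0 (fun _ => t) with hφd
  have hodd : ∀ t, φ (-t) = -φ t := by
    intro t
    show ph p 1 0 (fun _ => -t) = -ph p 1 0 (fun _ => t)
    rw [hφ, hφ]
    by_cases hd : (m : ℤ) ∣ t
    · rw [if_pos hd, if_pos (hd.neg_right), Int.neg_ediv_of_dvd hd]
      push_cast
      ring
    · rw [if_neg hd, if_neg (fun hc => hd ((dvd_neg).1 hc)), neg_zero]
  have h8' : (8 : ZMod p) ≠ 0 := by
    have : (8 : ZMod p) = 2 ^ 3 := by norm_num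
    rw [this]
    exact pow_ne_zero _ h20
  have hκ : c * 8 ≠ 0 := mul_ne_zero hc h8'
  have hh : (2 : ZMod p) ^ (k - 1).toNat = 2 ^ (2 * (e + 1)) := by
    have h1 : (k - 1).toNat = 2 * (e + 1) + j * ((p - 1) / 2) := by omega
    rw [h1, pow_add, mul_comm j, pow_mul _ ((p - 1) / 2) j, h2p, one_pow, mul_one]
  have hco : ∀ j : ℕ, ((PowerSeries.coeff (2 ^ j) a : ℤ) : ZMod p) =
      c * 8 * (2 ^ (e + 1)) ^ j * φ ((j : ℤ) + 1) := by
    intro j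
    rw [hcoef, form_one h8]
    show c * ((2 ^ j : ℕ) : ZMod p) ^ e * (8 * 2 ^ j * ph p 1 0 (fun _ => (j : ℤ) + 1)) =
      c * 8 * (2 ^ (e + 1)) ^ j * ph p 1 0 (fun _ => (j : ℤ) + 1)
    push_cast
    ring
  have hseq := seq2 (by omega) hk1 hT f a ha (c * 8) hκ e hh φ hodd hco l.prod hG
  have hm0 : ((m : ℕ) : AlgebraicClosure (ZMod p)) ≠ 0 := by
    intro h0
    rw [CharP.cast_eq_zero_iff (AlgebraicClosure (ZMod p)) p] at h0
    exact hpm h0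
  haveI : NeZero ((m : ℕ) : ZMod p) := ⟨by
    intro h0
    rw [CharP.cast_eq_zero_iff (ZMod p) p] at h0
    exact hpm h0⟩
  obtain ⟨ζ, hζ⟩ := HasEnoughRootsOfUnity.exists_primitiveRoot (AlgebraicClosure (ZMod p)) m
  have hr0 := root hm u hu φ hφ (fun i => ((l.prod.coeff i : ℤ) : ZMod p) * (2 ^ (e + 1)) ^ i)
    l.prod.natDegree hseq ζ hζ.pow_eq_one
  have hr1 := mn_root l.prod (2 ^ (e + 1)) (ζ + ζ⁻¹) hr0
  have hex : ∃ G ∈ l, Polynomial.aeval (algebraMap (ZMod p) (AlgebraicClosure (ZMod p))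
      (2 ^ (e + 1)) * (ζ + ζ⁻¹)) (G.map (Int.castRingHom (ZMod p))) = 0 := by
    have h1 : l.prod.map (Int.castRingHom (ZMod p)) =
        (l.map (fun G => G.map (Int.castRingHom (ZMod p)))).prod := by
      rw [← Polynomial.coe_mapRingHom, map_list_prod]
    rw [h1, map_list_prod, List.map_map, List.prod_eq_zero_iff, List.mem_map] at hr1
    obtain ⟨G, hG1, hG2⟩ := hr1
    exact ⟨G, hG1, hG2⟩
  obtain ⟨G, hGl, hGr⟩ := hex
  obtain ⟨hGne, hGd⟩ := hl G hGl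
  have hw0 : (2 : ZMod p) ^ (e + 1) ≠ 0 := pow_ne_zero _ h20
  have hcomp : (G.map (Int.castRingHom (ZMod p))).comp
      (Polynomial.C ((2 : ZMod p) ^ (e + 1)) * Polynomial.X) ≠ 0 := by
    intro h0
    rcases Polynomial.comp_eq_zero_iff.1 h0 with h1 | ⟨_, h1⟩
    · exact hGne h1
    · have h2 := congrArg Polynomial.natDegree h1
      rw [Polynomial.natDegree_C_mul_X _ hw0, Polynomial.natDegree_C] at h2
      exact one_ne_zero h2
  have hfin := deg hm hr ζ hζ _ hcomp (by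
    rw [Polynomial.aeval_comp, map_mul, Polynomial.aeval_C, Polynomial.aeval_X]
    exact hGr)
  rw [Polynomial.natDegree_comp, Polynomial.natDegree_C_mul_X _ hw0, mul_one] at hfin
  have := Polynomial.natDegree_map_le (p := G) (f := Int.castRingHom (ZMod p))
  omega

end Pool.Agent.Lib.MP_06b9d2_nt.MF
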