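import Mathlib

/-!
Module MF-Ord (MP_06b9d2_nt, Maeda, large irreducible factors). The least exponent `r` with
`p ^ r ≡ ± 1` modulo `m`: a criterion.
-/

namespace Pool.Agent.Lib.MP_06b9d2_nt.MF

private def Pm (p m j : ℕ) : Prop := (p : ZMod m) ^ j = 1 ∨ (p : ZMod m) ^ j = -1

private theorem Pm_iff {p m j : ℕ} (hp : 1 ≤ p) : (m ∣ p ^ j - 1 ∨ m ∣ p ^ j + 1) ↔ Pm p m j := by
  unfold Pm
  have h1 : m ∣ p ^ j - 1 ↔ (p : ZMod m) ^ j = 1 := by
    rw [← ZMod.natCast_eq_zero_iff, Nat.cast_sub (Nat.one_le_pow _ _ hp)]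
    push_cast
    exact sub_eq_zero
  have h2 : m ∣ p ^ j + 1 ↔ (p : ZMod m) ^ j = -1 := by
    rw [← ZMod.natCast_eq_zero_iff]
    push_cast
    exact add_eq_zero_iff_eq_neg
  rw [h1, h2]

private theorem Pm_mod {p m a b : ℕ} (ha : Pm p m a) (hb : Pm p m b) : Pm p m (b % a) := by
  have hq : Pm p m (a * (b / a)) := by
    unfold Pm
    rw [pow_mul]
    rcases ha with h | h
    · rw [h, one_pow]; exact Or.inl rfl
    · rw [h]; exact neg_one_pow_eq_or _ _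
  have h3 : (p : ZMod m) ^ b = (p : ZMod m) ^ (a * (b / a)) * (p : ZMod m) ^ (b % a) := by
    rw [← pow_add, Nat.div_add_mod]
  unfold Pm at *
  rcases hq with h | h <;> rcases hb with h' | h'
  · left; rw [h, one_mul] at h3; rw [← h3, h']
  · right; rw [h, one_mul] at h3; rw [← h3, h']
  · right
    rw [h, h'] at h3
    rw [neg_one_mul] at h3
    rw [eq_neg_iff_add_eq_zero]
    rw [h3]
    ring
  · left
    rw [h, h', neg_one_mul] at h3
    exact (neg_injective h3).symm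

theorem ord_crit {p m r : ℕ} (hp : 1 ≤ p) (hr : 1 ≤ r) (h0 : m ∣ p ^ r - 1 ∨ m ∣ p ^ r + 1)
    (h1 : ∀ q : ℕ, q.Prime → q ∣ r → ¬ m ∣ p ^ (r / q) - 1 ∧ ¬ m ∣ p ^ (r / q) + 1) :
    ∀ j, 1 ≤ j → j < r → ¬ m ∣ p ^ j - 1 ∧ ¬ m ∣ p ^ j + 1 := by
  classical
  have key : ∀ j, 1 ≤ j → j < r → ¬ Pm p m j := by
    intro j hj1 hjr hj
    have hex : ∃ i, 1 ≤ i ∧ Pm p m i := ⟨j, hj1, hj⟩
    obtain ⟨hi1, hi⟩ := Nat.find_spec hex
    have hmin : ∀ i, i < Nat.find hex → ¬ (1 ≤ i ∧ Pm p m i) := fun i hi => Nat.find_min hex hi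
    set i := Nat.find hex with hidef
    have hij : i ≤ j := Nat.find_min' hex ⟨hj1, hj⟩
    have hr' : Pm p m (r % i) := Pm_mod hi ((Pm_iff hp).1 h0)
    have hlt : r % i < i := Nat.mod_lt _ hi1
    have hz : r % i = 0 := by
      by_contra hne
      exact hmin _ hlt ⟨Nat.one_le_iff_ne_zero.2 hne, hr'⟩
    obtain ⟨t, ht⟩ := Nat.dvd_of_mod_eq_zero hz
    have ht1 : t ≠ 1 := by
      rintro rfl
      omega
    obtain ⟨q, hq, hqt⟩ := Nat.exists_prime_and_dvd ht1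
    obtain ⟨s, hs⟩ := hqt
    have hrq : r / q = i * s := by
      rw [ht, hs, show i * (q * s) = q * (i * s) by ring, Nat.mul_div_cancel_left _ hq.pos]
    have hP : Pm p m (r / q) := by
      rw [hrq]
      unfold Pm
      rw [pow_mul]
      rcases hi with h | h
      · rw [h, one_pow]; exact Or.inl rfl
      · rw [h]; exact neg_one_pow_eq_or _ _
    have h2 := h1 q hq (by rw [ht, hs]; exact ⟨i * s, by ring⟩)
    rcases (Pm_iff hp).2 hP with h | h
    · exact h2.1 h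
    · exact h2.2 h
  intro j hj1 hjr
  have h := key j hj1 hjr
  rw [← Pm_iff hp] at h
  push Not at h
  exact h

end Pool.Agent.Lib.MP_06b9d2_nt.MF
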