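import Pool.Agent.Lib.MP_06b9d2_nt.MD.HeckeQ
import Pool.Agent.Lib.MP_06b9d2_nt.MD.Crit

/-!
Module MF-Seq2 (MP_06b9d2_nt, Maeda, large irreducible factors). Relations for `T_2` modulo `p`.

`b_i (j)` = the coefficient of `2 ^ j` of `T ^ i f` modulo `p`: `T ^ i f` has integral coefficients and (`hecke_q`) modulo `p`: `b_{i+1} (j) = b_i (j + 1) + 2 ^ (k - 1) b_i (j - 1)` (the second term only for `j ≥ 1`). By induction on `i`: `b_i (j) = κ 2 ^ (i (e + 1)) 2 ^ (j (e + 1)) (U ^ i φ) (j + 1)`: the functions `U ^ i φ` are odd, so `(U ^ i φ) 0 = 0` (`2 ≠ 0` in `ZMod p`; `x = -x`), and `2 ^ (k - 1) = 2 ^ (2 (e + 1))`. See `MD/Crit.lean` for the integrality and the linearity of the `q`-expansion. The relation `∑ Q_i T ^ i f = 0` gives `∑_i Q_i b_i (j) = 0` for all `j`, so (cancel `κ 2 ^ (j (e + 1))`) the claim for `t = j + 1 ≥ 1`; for `t ≤ -1` by oddness, for `t = 0` all terms are `0`.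
-/

namespace Pool.Agent.Lib.MP_06b9d2_nt.MF

open UpperHalfPlane
open scoped MatrixGroups ModularForm

/-- `(U φ) (t) = φ (t + 1) + φ (t - 1)` -/
def Uf {R : Type} [AddCommGroup R] (φ : ℤ → R) : ℤ → R := fun t => φ (t + 1) + φ (t - 1)

/-- the coefficients of the iterates of the Hecke operator -/
private noncomputable def sqB (a : PowerSeries ℤ) (e : ℕ) : ℕ → ℕ → ℤ
  | 0, m => PowerSeries.coeff m a
  | (n + 1), m => sqB a e n (2 * m) + 2 ^ e * (if 2 ∣ m then sqB a e n (m / 2) else 0)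

private theorem sqB_coeff {k : ℤ} (hk : 1 ≤ k) {T : CuspForm 𝒮ℒ k →ₗ[ℂ] CuspForm 𝒮ℒ k}
    (hT : IsHecke k 2 T) (f : CuspForm 𝒮ℒ k) (a : PowerSeries ℤ)
    (ha : PowerSeries.map (Int.castRingHom ℂ) a = qExpansion 1 f) (n : ℕ) :
    ∀ m : ℕ, (qExpansion 1 ((T ^ n) f)).coeff m = ((sqB a (k - 1).toNat n m : ℤ) : ℂ) := by
  induction n with
  | zero =>
    intro m
    rw [pow_zero]
    show (qExpansion 1 f).coeff m = _
    rw [← ha, PowerSeries.coeff_map]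
    rfl
  | succ n ih =>
    intro m
    rw [pow_succ']
    show (qExpansion 1 (T ((T ^ n) f))).coeff m = _
    rw [hecke_q hT, ih (2 * m), ih (m / 2)]
    have he : (2 : ℂ) ^ (k - 1) = (2 : ℂ) ^ (k - 1).toNat := by
      have : k - 1 = (((k - 1).toNat : ℕ) : ℤ) := by omega
      conv_lhs => rw [this]
      rw [zpow_natCast]
    rw [he]
    show _ = ((sqB a (k - 1).toNat n (2 * m) + 2 ^ (k - 1).toNat *
      (if 2 ∣ m then sqB a (k - 1).toNat n (m / 2) else 0) : ℤ) : ℂ)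
    push_cast
    rfl

/-- the coefficient `m` as a linear map -/
private noncomputable def sqC (k : ℤ) (m : ℕ) : CuspForm 𝒮ℒ k →ₗ[ℂ] ℂ where
  toFun g := (qExpansion 1 g).coeff m
  map_add' f g := by
    rw [FunLike.coe_add, ModularForm.qExpansion_add one_pos one_mem_strictPeriods_SL, map_add]
  map_smul' c f := by
    rw [FunLike.coe_smul, ModularForm.qExpansion_smul one_pos one_mem_strictPeriods_SL,
      PowerSeries.coeff_smul]
    rfl

private theorem sq_rel {k : ℤ} (hk : 1 ≤ k) {T : CuspForm 𝒮ℒ k →ₗ[ℂ] CuspForm 𝒮ℒ k}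
    (hT : IsHecke k 2 T) (f : CuspForm 𝒮ℒ k) (a : PowerSeries ℤ)
    (ha : PowerSeries.map (Int.castRingHom ℂ) a = qExpansion 1 f)
    (Q : Polynomial ℤ) (hQ : Polynomial.aeval T Q = 0) (m : ℕ) :
    ∑ i ∈ Finset.range (Q.natDegree + 1), Q.coeff i * sqB a (k - 1).toNat i m = 0 := by
  rw [Polynomial.aeval_eq_sum_range] at hQ
  have h2 := congrArg (fun S : CuspForm 𝒮ℒ k →ₗ[ℂ] CuspForm 𝒮ℒ k => sqC k m (S f)) hQ
  simp only [LinearMap.sum_apply, map_sum, LinearMap.zero_apply, map_zero] at h2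
  have h3 : ((∑ i ∈ Finset.range (Q.natDegree + 1), Q.coeff i * sqB a (k - 1).toNat i m : ℤ) : ℂ)
      = 0 := by
    rw [← h2]
    push_cast
    refine Finset.sum_congr rfl fun i _ => ?_
    rw [LinearMap.smul_apply, map_zsmul, zsmul_eq_mul, ← sqB_coeff hk hT f a ha i m]
    rfl
  exact_mod_cast h3

private theorem Uf_odd {R : Type} [AddCommGroup R] (φ : ℤ → R) (hφ : ∀ t, φ (-t) = -φ t) (t : ℤ) :
    Uf φ (-t) = -Uf φ t := by
  unfold Uf
  have h1 : -t + 1 = -(t - 1) := by ring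
  have h2 : -t - 1 = -(t + 1) := by ring
  rw [h1, h2, hφ, hφ]
  abel

private theorem Uf_it_odd {R : Type} [AddCommGroup R] (φ : ℤ → R) (hφ : ∀ t, φ (-t) = -φ t)
    (i : ℕ) : ∀ t : ℤ, (Uf^[i] φ) (-t) = -(Uf^[i] φ) t := by
  induction i with
  | zero => exact hφ
  | succ i ih =>
    intro t
    rw [Function.iterate_succ_apply']
    exact Uf_odd _ ih t

theorem seq2 {p : ℕ} [Fact p.Prime] (hp2 : p ≠ 2) {k : ℤ} (hk : 1 ≤ k)
    {T : CuspForm 𝒮ℒ k →ₗ[ℂ] CuspForm 𝒮ℒ k} (hT : IsHecke k 2 T) (f : CuspForm 𝒮ℒ k)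
    (a : PowerSeries ℤ) (ha : PowerSeries.map (Int.castRingHom ℂ) a = qExpansion 1 f)
    (κ : ZMod p) (hκ : κ ≠ 0) (e : ℕ)
    (h2 : (2 : ZMod p) ^ (k - 1).toNat = 2 ^ (2 * (e + 1))) (φ : ℤ → ZMod p)
    (hφ : ∀ t, φ (-t) = -φ t)
    (hc : ∀ j : ℕ, ((PowerSeries.coeff (2 ^ j) a : ℤ) : ZMod p) =
      κ * (2 ^ (e + 1)) ^ j * φ ((j : ℤ) + 1))
    (Q : Polynomial ℤ) (hQ : Polynomial.aeval T Q = 0) (t : ℤ) :
    ∑ i ∈ Finset.range (Q.natDegree + 1),
      ((Q.coeff i : ℤ) : ZMod p) * (2 ^ (e + 1)) ^ i * (Uf^[i] φ) t = 0 := by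
  have h20 : (2 : ZMod p) ≠ 0 := by
    intro h
    have h3 : ((2 : ℕ) : ZMod p) = 0 := by exact_mod_cast h
    rw [ZMod.natCast_eq_zero_iff] at h3
    exact hp2 ((Nat.prime_dvd_prime_iff_eq Fact.out Nat.prime_two).1 h3)
  have hz : ∀ i : ℕ, (Uf^[i] φ) 0 = 0 := by
    intro i
    have h := Uf_it_odd φ hφ i 0
    rw [neg_zero] at h
    have h4 : 2 * (Uf^[i] φ) 0 = 0 := by
      rw [two_mul]
      nth_rewrite 1 [h]
      exact neg_add_cancel _
    exact (mul_eq_zero.1 h4).resolve_left h20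
  have hb : ∀ i j : ℕ, ((sqB a (k - 1).toNat i (2 ^ j) : ℤ) : ZMod p) =
      κ * (2 ^ (e + 1)) ^ i * (2 ^ (e + 1)) ^ j * (Uf^[i] φ) ((j : ℤ) + 1) := by
    intro i
    induction i with
    | zero =>
      intro j
      show ((PowerSeries.coeff (2 ^ j) a : ℤ) : ZMod p) = _
      rw [hc j]
      simp
    | succ i ih =>
      intro j
      have e1 : sqB a (k - 1).toNat (i + 1) (2 ^ j) = sqB a (k - 1).toNat i (2 ^ (j + 1)) +
          2 ^ (k - 1).toNat * (if 2 ∣ 2 ^ j then sqB a (k - 1).toNat i (2 ^ j / 2) else 0) := by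
        show sqB a (k - 1).toNat i (2 * 2 ^ j) + _ = _
        rw [pow_succ, mul_comm 2 (2 ^ j)]
      rw [e1, Int.cast_add, ih (j + 1), Int.cast_mul, Int.cast_pow, Int.cast_ofNat, h2,
        Function.iterate_succ_apply']
      show _ = κ * (2 ^ (e + 1)) ^ (i + 1) * (2 ^ (e + 1)) ^ j *
        ((Uf^[i] φ) ((j : ℤ) + 1 + 1) + (Uf^[i] φ) ((j : ℤ) + 1 - 1))
      rcases Nat.eq_zero_or_pos j with h1 | h1
      · subst h1
        rw [if_neg (by norm_num)]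
        have h5 : ((0 : ℕ) : ℤ) + 1 - 1 = 0 := by norm_num
        rw [h5, hz i]
        push_cast
        ring
      · obtain ⟨l, rfl⟩ : ∃ l, j = l + 1 := ⟨j - 1, by omega⟩
        rw [if_pos (by rw [pow_succ]; exact dvd_mul_left 2 _), pow_succ 2 l,
          Nat.mul_div_cancel _ (by norm_num), ih l]
        have h5 : ((l + 1 : ℕ) : ℤ) + 1 - 1 = (l : ℤ) + 1 := by push_cast; ring
        rw [h5]
        push_cast
        ring
  have hpos : ∀ j : ℕ, ∑ i ∈ Finset.range (Q.natDegree + 1),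
      ((Q.coeff i : ℤ) : ZMod p) * (2 ^ (e + 1)) ^ i * (Uf^[i] φ) ((j : ℤ) + 1) = 0 := by
    intro j
    have h := congrArg (fun z : ℤ => (z : ZMod p)) (sq_rel hk hT f a ha Q hQ (2 ^ j))
    simp only [Int.cast_sum, Int.cast_mul, Int.cast_zero] at h
    have h6 : κ * (2 ^ (e + 1)) ^ j * ∑ i ∈ Finset.range (Q.natDegree + 1),
      ((Q.coeff i : ℤ) : ZMod p) * (2 ^ (e + 1)) ^ i * (Uf^[i] φ) ((j : ℤ) + 1) = 0 := by
      rw [Finset.mul_sum, ← h]
      refine Finset.sum_congr rfl fun i _ => ?_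
      rw [hb i j]
      ring
    exact (mul_eq_zero.1 h6).resolve_left (mul_ne_zero hκ (pow_ne_zero _ (pow_ne_zero _ h20)))
  rcases lt_trichotomy t 0 with ht | ht | ht
  · obtain ⟨j, hj⟩ : ∃ j : ℕ, -t = (j : ℤ) + 1 := ⟨(-t - 1).toNat, by omega⟩
    have h := hpos j
    rw [← hj] at h
    have h7 : ∀ i, (Uf^[i] φ) (-t) = -(Uf^[i] φ) t := fun i => Uf_it_odd φ hφ i t
    simp only [h7, mul_neg, Finset.sum_neg_distrib, neg_eq_zero] at h
    exact h
  · subst ht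
    refine Finset.sum_eq_zero fun i _ => ?_
    rw [hz i, mul_zero]
  · obtain ⟨j, hj⟩ : ∃ j : ℕ, t = (j : ℤ) + 1 := ⟨(t - 1).toNat, by omega⟩
    rw [hj]
    exact hpos j

end Pool.Agent.Lib.MP_06b9d2_nt.MF
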